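import Pool.Agent.Helper925_CV.Fin

/-!
# Almost all `d`-dimensional permutation matrices have a limit (MP_2bee9d_co)

For every dimension `d` the proportion of those `d`-dimensional `k × ⋯ × k` permutation matrices
`Q` such that for `Q`, and even for every 0-1 pattern `P` of the same size containing `Q`, the
sequence `f(n,P,d)/n^(d-1)` converges in `[0,∞]` (to its supremum) tends to 1 as `k → ∞`.

Idea: if every monotone labelling of the positions of `P` by residues `0, …, N-1` whose sum
vanishes modulo `N` at each 1-entry of `P` is constant, then copies of a `P`-avoiding matrix can be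
put in the `N^(d-1)` blocks of a cyclic Latin hypercube, so `f(Nn,P,d) ≥ N^(d-1) f(n,P,d)`. Two
multiplicatively independent values `N = 2, 3` already force convergence, since numbers `2^x 3^y`
have ratio density. A second moment computation shows that almost all permutation matrices have
this rigidity for `N = 2, 3`.
-/

set_option autoImplicit false

namespace Pool.Agent.Results.MP_2bee9d_co.AlmostAllPermutations

open Filter Topology

/-- `f(n,P,d)`: the maximal number of ones in a `d`-dimensional `n × ⋯ × n` 0-1 matrix (the set `A`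
of its 1-entries) avoiding the `d`-dimensional `k × ⋯ × k` pattern `P` (the set of its 1-entries) -/
noncomputable def f {d k : ℕ} (P : Finset (Fin d → Fin k)) (n : ℕ) : ℕ :=
  sSup {m : ℕ | ∃ A : Finset (Fin d → Fin n), A.card = m ∧
    ¬ ∃ φ : (i : Fin d) → (Fin k ↪o Fin n), ∀ x ∈ P, (fun i => φ i (x i)) ∈ A}

/-- `f(n,P,d) / n^(d-1)` -/
noncomputable def g {d k : ℕ} (P : Finset (Fin d → Fin k)) (n : ℕ) : ENNReal :=
  ((f P n : ℕ) : ENNReal) / ((n : ENNReal) ^ (d - 1))

/-- `Q` is a `d`-dimensional permutation matrix: each cross section (the entries whose `i`-th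
coordinate is `t`) contains exactly one 1-entry -/
def IsPermMatrix {d k : ℕ} (Q : Finset (Fin d → Fin k)) : Prop :=
  ∀ (i : Fin d) (t : Fin k), ∃! x, x ∈ Q ∧ x i = t

/-- for every pattern `P` (of the same size) containing `Q` the sequence `f(n,P,d)/n^(d-1)`
converges to its supremum over `n ≥ 1` -/
def HasLimits {d k : ℕ} (Q : Finset (Fin d → Fin k)) : Prop :=
  ∀ P : Finset (Fin d → Fin k), Q ⊆ P →
    Tendsto (g P) atTop (𝓝 (⨆ m : {m : ℕ // 0 < m}, g P m))

open Classical in
/-- **Result.** For every `d ≥ 1` the number of `d`-dimensional `k × ⋯ × k` permutation matrices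
`Q` such that `f(n,P,d)/n^(d-1)` converges in `[0,∞]`, to its supremum, for every `P ⊇ Q` (in
particular for `P = Q`), divided by the number of all `d`-dimensional `k × ⋯ × k` permutation
matrices, tends to 1 as `k → ∞`. -/
theorem result (d : ℕ) (hd : 1 ≤ d) :
    Tendsto (fun k : ℕ =>
      ((Finset.univ.filter fun Q : Finset (Fin d → Fin k) =>
          IsPermMatrix Q ∧ HasLimits Q).card : ℝ) /
        ((Finset.univ.filter fun Q : Finset (Fin d → Fin k) => IsPermMatrix Q).card : ℝ))
      atTop (𝓝 1) := by
  refine Pool.Agent.Helper925_CV.ratio (d := d) hd (fun k Q => HasLimits Q) ?_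
  intro k τ w M hk π hπ hM hZ P hP
  exact Pool.Agent.Helper925_CV.conv_of_good hd k τ w M hk π hπ hM hZ P hP

end Pool.Agent.Results.MP_2bee9d_co.AlmostAllPermutations
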